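import Mathlib

/-!
# Proper factors of `n + √2` in `ℤ[√2]`, normalised
-/

set_option autoImplicit false

namespace Pool.Agent.H578.M2

/-- `n + √2 = (u + v √2) (r + s √2)` with both norms larger than `1`, `u > 0`, `2 |v| ≤ u`, slope `v / u`
in `[α, β]` and norm `u ^ 2 - 2 v ^ 2` in `[A, B]`. -/
def HasFactor (n : ℕ) (α β A B : ℝ) : Prop :=
  ∃ u v r s : ℤ, u * r + 2 * (v * s) = n ∧ u * s + v * r = 1 ∧ 1 < u ^ 2 - 2 * v ^ 2 ∧
    1 < r ^ 2 - 2 * s ^ 2 ∧ 0 < u ∧ 2 * |v| ≤ u ∧ α * (u : ℝ) ≤ (v : ℝ) ∧ (v : ℝ) ≤ β * (u : ℝ) ∧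
    A ≤ (u : ℝ) ^ 2 - 2 * (v : ℝ) ^ 2 ∧ (u : ℝ) ^ 2 - 2 * (v : ℝ) ^ 2 ≤ B

theorem rough_norm {n : ℕ} {z : ℝ} (hrough : ∀ p : ℕ, p.Prime → (p : ℤ) ∣ (n : ℤ) ^ 2 + -2 → z ≤ p)
    {N1 N2 : ℤ} (h : N1 * N2 = (n : ℤ) ^ 2 + -2) (h1 : 1 < N1) : z ≤ N1 := by
  obtain ⟨p, hp, hpd⟩ := Nat.exists_prime_and_dvd (n := N1.natAbs) (by omega)
  have h2 : (p : ℤ) ∣ N1 := Int.natCast_dvd.2 hpd
  have h3 : (p : ℤ) ∣ (n : ℤ) ^ 2 + -2 := by
    rw [← h]
    exact h2.mul_right _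
  have h5 : (p : ℤ) ≤ N1 := Int.le_of_dvd (by omega) h2
  have h6 : (p : ℝ) ≤ (N1 : ℝ) := by exact_mod_cast h5
  exact (hrough p hp h3).trans h6

/-- reduction of a factorisation to a factor with small rational part -/
theorem reduce (n : ℕ) (hn : 3 ≤ n) (z α β A B : ℝ) (hα1 : -1 ≤ α) (hα2 : α ≤ 1) (hβ1 : -1 ≤ β)
    (hβ2 : β ≤ 1) (hrough : ∀ p : ℕ, p.Prime → (p : ℤ) ∣ (n : ℤ) ^ 2 + -2 → z ≤ p)
    (h : HasFactor n α β A B) :
    ∃ (x : ℕ) (y r s : ℤ), 1 ≤ x ∧ x ^ 2 ≤ 8 * n ∧ z ≤ 5 * (x : ℝ) ^ 2 ∧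
      (x : ℤ) * r + 2 * (y * s) = n ∧ (x : ℤ) * s + y * r = 1 ∧ (x : ℤ) * |r| ≤ 4 * n ∧
      ((α * x - 4 ≤ y ∧ (y : ℝ) ≤ β * x + 4 ∧ A ≤ 5 * (x : ℝ) ^ 2 ∧ (x : ℝ) ^ 2 ≤ 2 * B) ∨
       (-β * x - 4 ≤ y ∧ (y : ℝ) ≤ -α * x + 4 ∧ (n : ℝ) ^ 2 ≤ B * (5 * (x : ℝ) ^ 2) ∧
          A * (x : ℝ) ^ 2 ≤ 8 * (n : ℝ) ^ 2)) := by
  obtain ⟨u, v, r, s, e1, e2, n1, n2, hu, hvu, hα, hβ, hA, hB⟩ := h
  have hnz : (3 : ℤ) ≤ n := by exact_mod_cast hn
  set d : ℤ := u ^ 2 - 2 * v ^ 2 with hd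
  set e : ℤ := r ^ 2 - 2 * s ^ 2 with he
  have hN : d * e = (n : ℤ) ^ 2 + -2 := by
    rw [hd, he]
    linear_combination (u * r + 2 * (v * s) + n) * e1 - 2 * (u * s + v * r + 1) * e2
  have hdr : d * r = n * u - 2 * v := by
    rw [hd]
    linear_combination u * e1 - 2 * v * e2
  have hds : d * s = u - n * v := by
    rw [hd]
    linear_combination u * e2 - v * e1
  have hz1 := rough_norm hrough hN n1
  have hz2 := rough_norm hrough (by rw [mul_comm]; exact hN) n2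
  have hv0 := abs_nonneg v
  have hv1 := le_abs_self v
  have hv2 := neg_abs_le v
  have hv4 : 4 * v ^ 2 ≤ u ^ 2 := by
    have h1 : (2 * |v|) ^ 2 ≤ u ^ 2 := pow_le_pow_left₀ (by linarith) hvu 2
    have h2 : (2 * |v|) ^ 2 = 4 * v ^ 2 := by rw [mul_pow, sq_abs]; ring
    linarith
  have hd2 : u ^ 2 ≤ 2 * d := by rw [hd]; linarith
  have hdu : d ≤ u ^ 2 := by rw [hd]; nlinarith [sq_nonneg v]
  have hdr' : |d * r| ≤ (n + 1) * u := by
    rw [hdr, abs_le]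
    constructor
    · nlinarith
    · nlinarith
  have hur : u * |r| ≤ 2 * (n + 1) := by
    have h1 : d * (u * |r|) ≤ d * (2 * (n + 1)) := by
      calc d * (u * |r|) = u * |d * r| := by rw [abs_mul, abs_of_pos (by linarith : 0 < d)]; ring
        _ ≤ u * ((n + 1) * u) := by gcongr
        _ = (n + 1) * u ^ 2 := by ring
        _ ≤ (n + 1) * (2 * d) := by gcongr
        _ = d * (2 * (n + 1)) := by ring
    exact le_of_mul_le_mul_left h1 (by linarith)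
  have hdr0 : (0 : ℝ) < d := by exact_mod_cast (by linarith : (0 : ℤ) < d)
  have hdcast : (d : ℝ) = (u : ℝ) ^ 2 - 2 * (v : ℝ) ^ 2 := by rw [hd]; push_cast; ring
  rw [← hdcast] at hA hB
  have hd2r : (u : ℝ) ^ 2 ≤ 2 * d := by exact_mod_cast hd2
  have hdur : (d : ℝ) ≤ (u : ℝ) ^ 2 := by exact_mod_cast hdu
  rcases le_or_gt d e with h12 | h12
  · -- the factor is the smaller one
    have hdn : d ≤ n := by
      by_contra hc
      push Not at hc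
      have h1 : ((n : ℤ) + 1) * (n + 1) ≤ d * e := mul_le_mul (by omega) (by omega) (by omega) (by omega)
      nlinarith
    obtain ⟨x, rfl⟩ := Int.eq_ofNat_of_zero_le hu.le
    push_cast at hα hβ hd2r hdur
    refine ⟨x, v, r, s, by omega, ?_, ?_, e1, e2, by linarith, Or.inl ⟨by linarith, by linarith, ?_, ?_⟩⟩
    · have : ((x : ℤ)) ^ 2 ≤ 8 * n := by linarith
      exact_mod_cast this
    · nlinarith [sq_nonneg (x : ℝ)]
    · nlinarith [sq_nonneg (x : ℝ)]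
    · linarith
  · -- the cofactor is the smaller one
    have hdn : (n : ℤ) ≤ d := by
      by_contra hc
      push Not at hc
      have h1 : d * e ≤ (n - 1) * (n - 2) := mul_le_mul (by omega) (by omega) (by omega) (by omega)
      nlinarith
    have hr0 : 0 < r := by
      have h1 : 0 < d * r := by
        rw [hdr]
        nlinarith
      exact pos_of_mul_pos_right h1 (by linarith)
    rw [abs_of_pos hr0] at hur
    have hdr2 : d * r ^ 2 ≤ 2 * (n + 1) ^ 2 := by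
      calc d * r ^ 2 = r * (d * r) := by ring
        _ ≤ r * ((n + 1) * u) := by
            have : d * r ≤ (n + 1) * u := (le_abs_self _).trans hdr'
            gcongr
        _ = (n + 1) * (u * r) := by ring
        _ ≤ (n + 1) * (2 * (n + 1)) := by gcongr
        _ = _ := by ring
    have hn8 : 2 * ((n : ℤ) + 1) ^ 2 ≤ 8 * (n : ℤ) ^ 2 := by nlinarith
    have hdr3 : d * r ^ 2 ≤ 8 * (n : ℤ) ^ 2 := hdr2.trans hn8
    have hr8 : r ^ 2 ≤ 8 * n := by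
      have h1 : (n : ℤ) * r ^ 2 ≤ n * (8 * n) := by
        calc (n : ℤ) * r ^ 2 ≤ d * r ^ 2 := by gcongr
          _ ≤ 8 * (n : ℤ) ^ 2 := hdr3
          _ = _ := by ring
      exact le_of_mul_le_mul_left h1 (by linarith)
    have hur0 : (0 : ℝ) < u := by exact_mod_cast hu
    have hu1r : (1 : ℝ) ≤ u := by exact_mod_cast (by omega : (1 : ℤ) ≤ u)
    have hnr : (3 : ℝ) ≤ n := by exact_mod_cast hn
    have hvur : 2 * |(v : ℝ)| ≤ u := by exact_mod_cast hvu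
    have hdrr : (d : ℝ) * r = n * u - 2 * v := by exact_mod_cast hdr
    have hdsr : (d : ℝ) * s = u - n * v := by exact_mod_cast hds
    have hβv : |β * (v : ℝ)| ≤ |(v : ℝ)| := by
      rw [abs_mul]
      have : |β| ≤ 1 := abs_le.2 ⟨hβ1, hβ2⟩
      nlinarith [abs_nonneg (v : ℝ)]
    have hαv : |α * (v : ℝ)| ≤ |(v : ℝ)| := by
      rw [abs_mul]
      have : |α| ≤ 1 := abs_le.2 ⟨hα1, hα2⟩
      nlinarith [abs_nonneg (v : ℝ)]
    have hβv1 := (le_abs_self (β * (v : ℝ))).trans hβv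
    have hαv1 := (neg_le_abs (α * (v : ℝ))).trans hαv
    have hg1 : -β * (r : ℝ) - 4 ≤ s := by
      have h1 : (d : ℝ) * (-β * (r : ℝ) - 4) ≤ d * s := by
        have h2 : (0 : ℝ) ≤ n * (β * u - v) := mul_nonneg (by linarith) (by linarith)
        have h3 : (d : ℝ) * (-β * (r : ℝ) - 4) = -β * (n * u - 2 * v) - 4 * d := by
          rw [← hdrr]; ring
        rw [h3, hdsr]
        nlinarith
      exact le_of_mul_le_mul_left h1 hdr0
    have hg2 : (s : ℝ) ≤ -α * (r : ℝ) + 4 := by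
      have h1 : (d : ℝ) * s ≤ d * (-α * (r : ℝ) + 4) := by
        have h2 : (0 : ℝ) ≤ n * (v - α * u) := mul_nonneg (by linarith) (by linarith)
        have h3 : (d : ℝ) * (-α * (r : ℝ) + 4) = -α * (n * u - 2 * v) + 4 * d := by
          rw [← hdrr]; ring
        rw [h3, hdsr]
        nlinarith
      exact le_of_mul_le_mul_left h1 hdr0
    have her : e ≤ r ^ 2 := by rw [he]; nlinarith [sq_nonneg s]
    have herr : (e : ℝ) ≤ (r : ℝ) ^ 2 := by exact_mod_cast her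
    have he0 : (0 : ℝ) < e := by exact_mod_cast (by linarith : (0 : ℤ) < e)
    have hNr : (d : ℝ) * e = (n : ℝ) ^ 2 + -2 := by exact_mod_cast hN
    have hdr3r : (d : ℝ) * (r : ℝ) ^ 2 ≤ 8 * (n : ℝ) ^ 2 := by exact_mod_cast hdr3
    obtain ⟨x, rfl⟩ := Int.eq_ofNat_of_zero_le hr0.le
    push_cast at hg1 hg2 herr hdr3r hur
    refine ⟨x, s, u, v, by omega, ?_, ?_, by linarith, by linarith, ?_, Or.inr ⟨hg1, hg2, ?_, ?_⟩⟩
    · exact_mod_cast hr8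
    · nlinarith [sq_nonneg (x : ℝ)]
    · rw [abs_of_pos hu]
      nlinarith
    · have h1 : (d : ℝ) * e ≤ B * (x : ℝ) ^ 2 := mul_le_mul hB herr he0.le (by linarith)
      have h2 : (0 : ℝ) ≤ B * (x : ℝ) ^ 2 := mul_nonneg (by linarith) (sq_nonneg _)
      have h3 : (9 : ℝ) ≤ (n : ℝ) ^ 2 := by nlinarith
      nlinarith
    · have h1 : A * (x : ℝ) ^ 2 ≤ d * (x : ℝ) ^ 2 := by gcongr
      linarith

end Pool.Agent.H578.M2
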