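import Pool.Agent.H578.M2.GYM
import Pool.Agent.H578.M2.AlgM
import Pool.Agent.H578.Sec.Alg2
import Pool.Agent.Y577.PA.SX

/-!
# The proper factors of `n + √2` for `n ^ 2 - 2` rough: upper bound for boxes
-/

set_option autoImplicit false

namespace Pool.Agent.H578.M2

open Finset Filter Topology
open Pool.Agent.Y346.PA
open Pool.Agent.H578.Gen
open scoped Classical

/-- the integers `n ≤ X` with `n ^ 2 - 2` rough and a reduced factorisation with `x` in a range and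
slope in an interval -/
noncomputable def SSM (w : ℝ) (X : ℕ) (α β A B : ℝ) : Finset ℕ :=
  (Icc 1 X).filter (fun n : ℕ => (∀ p : ℕ, p.Prime → (p : ℤ) ∣ (n : ℤ) ^ 2 + -2 → (X : ℝ) ^ w ≤ p) ∧
    ∃ (x : ℕ) (y r s : ℤ), 1 ≤ x ∧ x ^ 2 ≤ 8 * n ∧ (X : ℝ) ^ w ≤ 5 * (x : ℝ) ^ 2 ∧
      (x : ℤ) * r + 2 * (y * s) = n ∧ (x : ℤ) * s + y * r = 1 ∧ (x : ℤ) * |r| ≤ 4 * n ∧
      α * x - 4 ≤ y ∧ (y : ℝ) ≤ β * x + 4 ∧ A ≤ 5 * (x : ℝ) ^ 2 ∧ (x : ℝ) ^ 2 ≤ B)

theorem ssm_card (w α β A B : ℝ) (hw : 0 < w) (C X : ℕ) (hC : 1 / w ≤ C) (hX : 9 ≤ X) :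
    (SSM w X α β A B).card ≤ ∑ x ∈ ((Icc 1 (Nat.sqrt (8 * X))).filter
      (fun x : ℕ => A ≤ 5 * (x : ℝ) ^ 2 ∧ (x : ℝ) ^ 2 ≤ B)).filter
        (fun x : ℕ => (X : ℝ) ^ w ≤ 5 * (x : ℝ) ^ 2),
          (FxM C x (8 * X / x) (⌊α * x⌋ - 4) (⌈β * x⌉ + 4)).card := by
  have hXr : (9 : ℝ) ≤ X := by exact_mod_cast hX
  have hX0 : (0 : ℝ) < X := by linarith
  rw [← Set.ncard_coe_finset (SSM w X α β A B)]
  apply ncard_le_sum (↑(SSM w X α β A B)) _
    (fun x => FxM C x (8 * X / x) (⌊α * x⌋ - 4) (⌈β * x⌉ + 4))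
    (fun x u => (((x : ℤ) ^ 2 * u.2 + 2 * (u.1 * (1 - u.1 * u.2))) / x).toNat)
  intro n hn
  rw [mem_coe, SSM, mem_filter, mem_Icc] at hn
  obtain ⟨⟨hn1, hnX⟩, hrough, x, y, r, s, hx1, hxn, hzx, e1, e2, hxrn, hα, hβ, hA, hB⟩ := hn
  have hnXz : (n : ℤ) ≤ X := by exact_mod_cast hnX
  have hxz : (1 : ℤ) ≤ x := by exact_mod_cast hx1
  have hxx : x ^ 2 ≤ 8 * X := by omega
  refine ⟨x, ?_, (y, r), ?_, ?_⟩
  · rw [mem_filter, mem_filter, mem_Icc]
    exact ⟨⟨⟨hx1, by rw [Nat.le_sqrt']; exact hxx⟩, hA, hB⟩, hzx⟩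
  · have hy1 : ⌊α * (x : ℝ)⌋ - 4 ≤ y := by
      have h1 : (⌊α * (x : ℝ)⌋ : ℝ) ≤ α * x := Int.floor_le _
      have h2 : ((⌊α * (x : ℝ)⌋ - 4 : ℤ) : ℝ) ≤ (y : ℝ) := by
        push_cast
        linarith
      exact_mod_cast h2
    have hy2 : y ≤ ⌈β * (x : ℝ)⌉ + 4 := by
      have h1 : β * x ≤ (⌈β * (x : ℝ)⌉ : ℝ) := Int.le_ceil _
      have h2 : (y : ℝ) ≤ ((⌈β * (x : ℝ)⌉ + 4 : ℤ) : ℝ) := by
        push_cast
        linarith
      exact_mod_cast h2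
    have hrR : |r| ≤ ((8 * X / x : ℕ) : ℤ) := by
      have h1 : r.natAbs ≤ 8 * X / x := by
        rw [Nat.le_div_iff_mul_le (by omega)]
        have : ((r.natAbs * x : ℕ) : ℤ) ≤ ((8 * X : ℕ) : ℤ) := by
          push_cast
          linarith
        exact_mod_cast this
      rw [Int.abs_eq_natAbs]
      exact_mod_cast h1
    have hrs := abs_le.1 hrR
    unfold FxM
    rw [mem_filter, mem_product, mem_Icc, mem_Icc]
    refine ⟨⟨⟨hy1, hy2⟩, ⟨hrs.1, hrs.2⟩⟩, ⟨-s, by linear_combination e2⟩, ?_⟩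
    intro p hp hCp hpx hpnx _ hh
    unfold hitQ at hh
    simp only at hh
    have h9 : Q 1 0 (-2) x (-y) * Q 1 0 (-2) (x * r) (1 - y * r) =
        (x : ℤ) * x * ((n : ℤ) ^ 2 + -2) := by
      have h10 : 1 - y * r = x * s := by linear_combination -e2
      rw [h10]
      unfold Q
      linear_combination (x : ℤ) ^ 2 * ((x * r + 2 * (y * s) + n) * e1 -
        2 * (x * s + y * r + 1) * e2)
    rw [h9] at hh
    have hpz' : Prime (p : ℤ) := Nat.prime_iff_prime_int.1 hp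
    have hpa : (p : ℤ) ∣ (n : ℤ) ^ 2 + -2 := by
      rcases (hpz'.dvd_mul).1 hh with h | h
      · rcases (hpz'.dvd_mul).1 h with h | h
        · exact absurd (Int.natCast_dvd_natCast.1 h) hpnx
        · exact absurd (Int.natCast_dvd_natCast.1 h) hpnx
      · exact h
    have hpz := hrough p hp hpa
    -- `p ^ (2 C) ≤ 8 X < X ^ 2 ≤ p ^ (2 C)`
    have h11 : (p : ℝ) ^ (2 * C) ≤ 8 * X := by
      have h12 : (p ^ C) ^ 2 ≤ 8 * X := le_trans (Nat.pow_le_pow_left hpx 2) hxx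
      rw [← pow_mul, mul_comm C 2] at h12
      exact_mod_cast h12
    have h13 : (X : ℝ) ^ 2 ≤ (p : ℝ) ^ (2 * C) := by
      calc (X : ℝ) ^ 2 = (X : ℝ) ^ (2 : ℝ) := by rw [← Real.rpow_natCast]; norm_num
        _ ≤ (X : ℝ) ^ (w * ((2 * C : ℕ) : ℝ)) := by
            apply Real.rpow_le_rpow_of_exponent_le (by linarith)
            push_cast
            rw [div_le_iff₀ hw] at hC
            linarith
        _ = ((X : ℝ) ^ w) ^ (2 * C) := by rw [Real.rpow_mul hX0.le, Real.rpow_natCast]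
        _ ≤ (p : ℝ) ^ (2 * C) := by gcongr
    nlinarith
  · simp only
    have h12 : (x : ℤ) ^ 2 * r + 2 * (y * (1 - y * r)) = x * n := by
      linear_combination (x : ℤ) * e1 - 2 * y * e2
    rw [h12, Int.mul_ediv_cancel_left _ (by omega)]
    simp

theorem coreM (w : ℝ) (hw : 0 < w) : ∃ C : ℝ, 0 < C ∧ ∀ α β : ℝ, -1 ≤ α → α < β → β ≤ 1 →
    ∀ᶠ X : ℕ in atTop, ∀ A B : ℝ, 0 < A → A ≤ 5 * B →
      ((SSM w X α β A B).card : ℝ) ≤
        C * (β - α) * X / (Real.log X) ^ 2 * (1 + Real.log (5 * B / A)) := by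
  obtain ⟨c0, hc0⟩ := exists_nat_ge (1 / w)
  obtain ⟨C, K, hC4, hCc, hK, x0, hG⟩ := lemGYM c0
  have hC : 1 / w ≤ C := hc0.trans (by exact_mod_cast hCc)
  obtain ⟨C8, hC8, hsx⟩ := Pool.Agent.Y577.PA.t_SX
  refine ⟨256 * K * C8 / w ^ 2, by positivity, ?_⟩
  intro α β hα hαβ hβ
  set η : ℝ := β - α with hηdef
  have hη : 0 < η := by linarith
  have hη2 : η ≤ 2 := by linarith
  have hlog : Tendsto (fun X : ℕ => Real.log (X : ℝ)) atTop atTop :=
    Real.tendsto_log_atTop.comp tendsto_natCast_atTop_atTop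
  have hpow : Tendsto (fun X : ℕ => (X : ℝ) ^ w) atTop atTop :=
    (tendsto_rpow_atTop hw).comp tendsto_natCast_atTop_atTop
  filter_upwards [hlog.eventually_ge_atTop 1, hlog.eventually_ge_atTop (8 / w),
    hpow.eventually_ge_atTop (5 * (x0 : ℝ) ^ 2),
    hpow.eventually_ge_atTop (5 * ((10 / η) ^ 16) ^ 2), eventually_ge_atTop 9]
    with X h1 h2 h4 h5 h6
  intro A B hA hAB
  have hXr : (9 : ℝ) ≤ X := by exact_mod_cast h6
  have hX0 : (0 : ℝ) < X := by linarith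
  set L : ℝ := Real.log X with hL
  have hL0 : 0 < L := by linarith
  set T : ℕ := Nat.sqrt (8 * X) with hT
  have hTsq : T ^ 2 ≤ 8 * X := Nat.sqrt_le' _
  have hcard := ssm_card w α β A B hw C X hC h6
  set I : Finset ℕ := (Icc 1 T).filter (fun x : ℕ => A ≤ 5 * (x : ℝ) ^ 2 ∧ (x : ℝ) ^ 2 ≤ B)
    with hI
  have hη1 : 1 ≤ 10 / η := by
    rw [le_div_iff₀ hη]
    linarith
  have hterm : ∀ x ∈ I.filter (fun x : ℕ => (X : ℝ) ^ w ≤ 5 * (x : ℝ) ^ 2),
      ((FxM C x (8 * X / x) (⌊α * x⌋ - 4) (⌈β * x⌉ + 4)).card : ℝ) ≤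
      256 * K * η * X / (w ^ 2 * L ^ 2) * (((x : ℝ) / x.totient) ^ 8 / x) := by
    intro x hx
    rw [mem_filter, hI, mem_filter, mem_Icc] at hx
    obtain ⟨⟨⟨hx1, hxT⟩, -⟩, hxz⟩ := hx
    have hx0 : (0 : ℝ) < x := by exact_mod_cast hx1
    have hxx0 : x0 ≤ x := by
      have : (x0 : ℝ) ^ 2 ≤ (x : ℝ) ^ 2 := by linarith
      have h7 : (x0 : ℝ) ≤ x := le_of_abs_le (abs_le_of_sq_le_sq this hx0.le)
      exact_mod_cast h7
    have hxη : (10 / η) ^ 16 ≤ (x : ℝ) := by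
      have : ((10 / η) ^ 16) ^ 2 ≤ (x : ℝ) ^ 2 := by linarith
      exact le_of_abs_le (abs_le_of_sq_le_sq this hx0.le)
    have hx16 : 10 / η ≤ (x : ℝ) ^ (1 / 16 : ℝ) := by
      have h7 : ((10 / η) ^ 16) ^ (1 / 16 : ℝ) ≤ (x : ℝ) ^ (1 / 16 : ℝ) := by gcongr
      have h8 : ((10 / η) ^ 16) ^ (1 / 16 : ℝ) = 10 / η := by
        rw [← Real.rpow_natCast, ← Real.rpow_mul (by positivity)]
        norm_num
      linarith
    have hxη1 : 10 ≤ η * x := by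
      have h7 : 10 / η ≤ (10 / η) ^ 16 := le_self_pow₀ hη1 (by norm_num)
      have h8 : 10 / η ≤ x := h7.trans hxη
      rw [div_le_iff₀ hη] at h8
      linarith
    have hxsq : x ^ 2 ≤ 8 * X := le_trans (Nat.pow_le_pow_left hxT 2) hTsq
    have hxR : x ≤ 8 * X / x := by
      rw [Nat.le_div_iff_mul_le (by omega)]
      nlinarith
    set y1 : ℤ := ⌊α * (x : ℝ)⌋ - 4 with hy1
    set y2 : ℤ := ⌈β * (x : ℝ)⌉ + 4 with hy2
    have f1 : (⌊α * (x : ℝ)⌋ : ℝ) ≤ α * x := Int.floor_le _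
    have f2 : α * (x : ℝ) - 1 < (⌊α * (x : ℝ)⌋ : ℝ) := Int.sub_one_lt_floor _
    have f3 : β * x ≤ (⌈β * (x : ℝ)⌉ : ℝ) := Int.le_ceil _
    have f4 : (⌈β * (x : ℝ)⌉ : ℝ) < β * x + 1 := Int.ceil_lt_add_one _
    have hlu : (y2 : ℝ) - y1 ≤ 2 * η * x := by
      rw [hy1, hy2]
      push_cast
      have : η * x = β * x - α * x := by rw [hηdef]; ring
      linarith
    have hll : η * x ≤ (y2 : ℝ) - y1 := by
      rw [hy1, hy2]
      push_cast
      have : η * x = β * x - α * x := by rw [hηdef]; ring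
      linarith
    have hYx : (y2 : ℝ) - y1 ≤ 4 * x := by
      have : 2 * η * x ≤ 4 * x := by nlinarith
      linarith
    have hYl : (x : ℝ) ^ (15 / 16 : ℝ) ≤ (y2 : ℝ) - y1 := by
      refine le_trans ?_ hll
      have h9 : (x : ℝ) ^ (15 / 16 : ℝ) * (x : ℝ) ^ (1 / 16 : ℝ) = x := by
        rw [← Real.rpow_add hx0]
        norm_num
      have h10 : (x : ℝ) ^ (15 / 16 : ℝ) * (10 / η) ≤ x := by
        calc (x : ℝ) ^ (15 / 16 : ℝ) * (10 / η) ≤
            (x : ℝ) ^ (15 / 16 : ℝ) * (x : ℝ) ^ (1 / 16 : ℝ) := by gcongr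
          _ = x := h9
      have h11 : (0 : ℝ) ≤ (x : ℝ) ^ (15 / 16 : ℝ) := by positivity
      rw [← mul_div_assoc, div_le_iff₀ hη] at h10
      linarith
    have hRu : ((8 * X / x : ℕ) : ℝ) ≤ 8 * X / x := by
      have := Nat.cast_div_le (α := ℝ) (m := 8 * X) (n := x)
      push_cast at this
      exact this
    have hlogx : w * L / 4 ≤ Real.log x := by
      have h7 : (X : ℝ) ^ w ≤ 5 * (x : ℝ) ^ 2 := hxz
      have h8 := Real.log_le_log (by positivity) h7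
      rw [Real.log_rpow hX0, Real.log_mul (by norm_num) (by positivity), Real.log_pow] at h8
      push_cast at h8
      have h9 : Real.log 5 ≤ 4 := by
        have := Real.log_le_sub_one_of_pos (show (0 : ℝ) < 5 by norm_num)
        linarith
      have h10 : 8 ≤ w * L := by
        rw [div_le_iff₀ hw] at h2
        linarith
      linarith
    have hwL : 0 < w * L / 4 := by positivity
    have hlx : (Real.log x) ^ (-2 : ℝ) ≤ 16 / (w ^ 2 * L ^ 2) := by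
      calc (Real.log x) ^ (-2 : ℝ) ≤ (w * L / 4) ^ (-2 : ℝ) :=
            Real.rpow_le_rpow_of_nonpos hwL hlogx (by norm_num)
        _ = 16 / (w ^ 2 * L ^ 2) := by
            rw [Real.rpow_neg hwL.le]
            norm_num
            rw [div_pow]
            field_simp
            norm_num
    have hphi : (1 : ℝ) ≤ (x : ℝ) / x.totient := by
      rw [one_le_div (by exact_mod_cast Nat.totient_pos.2 (by omega))]
      exact_mod_cast Nat.totient_le x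
    have h8 : ((x : ℝ) / x.totient) ^ 4 ≤ ((x : ℝ) / x.totient) ^ 8 :=
      pow_le_pow_right₀ hphi (by norm_num)
    have hGx := hG x (8 * X / x) y1 y2 hxx0 hxR hYx hYl
    have hYq : ((y2 : ℝ) - y1) / x ≤ 2 * η := by
      rw [div_le_iff₀ hx0]
      exact hlu
    have hYq0 : 0 ≤ ((y2 : ℝ) - y1) / x := by
      apply div_nonneg _ hx0.le
      linarith
    have hlp : 0 ≤ (Real.log x) ^ (-2 : ℝ) := Real.rpow_nonneg (by linarith) _
    calc ((FxM C x (8 * X / x) y1 y2).card : ℝ)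
        ≤ K * (((y2 : ℝ) - y1) / x) * ((8 * X / x : ℕ) : ℝ) * (Real.log x) ^ (-2 : ℝ) *
          ((x : ℝ) / x.totient) ^ 4 := hGx
      _ ≤ K * (2 * η) * (8 * X / x) * (16 / (w ^ 2 * L ^ 2)) * ((x : ℝ) / x.totient) ^ 8 := by
          gcongr
      _ = 256 * K * η * X / (w ^ 2 * L ^ 2) * (((x : ℝ) / x.totient) ^ 8 / x) := by
          field_simp
          ring
  have hsum := Pool.Agent.H578.Sec.sum_div_real (fun x => ((x : ℝ) / x.totient) ^ 8) C8 hC8.le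
    (fun n => by positivity) hsx T A B hA hAB
  rw [← hI] at hsum
  calc ((SSM w X α β A B).card : ℝ)
      ≤ ∑ x ∈ I.filter (fun x : ℕ => (X : ℝ) ^ w ≤ 5 * (x : ℝ) ^ 2),
        ((FxM C x (8 * X / x) (⌊α * x⌋ - 4) (⌈β * x⌉ + 4)).card : ℝ) := by exact_mod_cast hcard
    _ ≤ ∑ x ∈ I.filter (fun x : ℕ => (X : ℝ) ^ w ≤ 5 * (x : ℝ) ^ 2),
        256 * K * η * X / (w ^ 2 * L ^ 2) * (((x : ℝ) / x.totient) ^ 8 / x) :=
        sum_le_sum hterm
    _ ≤ ∑ x ∈ I, 256 * K * η * X / (w ^ 2 * L ^ 2) * (((x : ℝ) / x.totient) ^ 8 / x) := by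
        apply sum_le_sum_of_subset_of_nonneg (filter_subset _ _)
        intro x _ _
        positivity
    _ = 256 * K * η * X / (w ^ 2 * L ^ 2) * ∑ x ∈ I, ((x : ℝ) / x.totient) ^ 8 / x := by
        rw [mul_sum]
    _ ≤ 256 * K * η * X / (w ^ 2 * L ^ 2) * (C8 * (1 + Real.log (5 * B / A))) := by gcongr
    _ = 256 * K * C8 / w ^ 2 * η * X / L ^ 2 * (1 + Real.log (5 * B / A)) := by
        field_simp

end Pool.Agent.H578.M2
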