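import Pool.Agent.H578.Gen.GY

/-!
# The sieve for the factors of `n + √2` in `ℤ[√2]`: one `x`
-/

set_option autoImplicit false

namespace Pool.Agent.H578.M2

open Finset Filter Topology
open Pool.Agent.Y346.PA
open Pool.Agent.H578.Gen
open scoped Classical

theorem nsq : ¬ IsSquare (-(-2 : ℤ)) := by
  rintro ⟨r, hr⟩
  have h1 : r ≤ 1 := by nlinarith
  have h2 : -1 ≤ r := by nlinarith
  interval_cases r <;> omega

/-- the set of the admissible pairs `(y, r)` for one `x` -/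
noncomputable def FxM (C x R : ℕ) (y1 y2 : ℤ) : Finset (ℤ × ℤ) :=
  (Icc y1 y2 ×ˢ Icc (-(R : ℤ)) R).filter (fun u : ℤ × ℤ =>
    (x : ℤ) ∣ u.1 * u.2 - 1 ∧ ∀ p : ℕ, p.Prime → C < p → p ^ C ≤ x → ¬ p ∣ x →
      SQ (-2) p → ¬ hitQ 1 0 (-2) x p u.1 u.2)

theorem lemGYM (c0 : ℕ) : ∃ (C : ℕ) (K : ℝ), 4 ≤ C ∧ c0 ≤ C ∧ 0 < K ∧ ∃ x0 : ℕ, ∀ (x R : ℕ)
    (y1 y2 : ℤ), x0 ≤ x → x ≤ R → (y2 : ℝ) - y1 ≤ 4 * x → (x : ℝ) ^ (15 / 16 : ℝ) ≤ (y2 : ℝ) - y1 →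
    ((FxM C x R y1 y2).card : ℝ) ≤
      K * (((y2 : ℝ) - y1) / x) * R * (Real.log x) ^ (-2 : ℝ) * ((x : ℝ) / x.totient) ^ 4 := by
  obtain ⟨C1, hC1, hks⟩ := Pool.Agent.H578.Sec.ksY kl 8
  set C : ℕ := max C1 (max 4 c0) with hC
  have hC4 : 4 ≤ C := le_trans (le_max_left _ _) (le_max_right _ _)
  have hCc : c0 ≤ C := le_trans (le_max_right _ _) (le_max_right _ _)
  have hCC : C1 ≤ C := le_max_left _ _
  obtain ⟨K, hK0, hK⟩ := pc_prod 2 (by norm_num) (SQ (-2)) (mertQ (-2) nsq) 1 le_rfl C hC4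
  have hC1' : (0 : ℝ) < C1 := by exact_mod_cast hC1
  refine ⟨C, C1 * K, hC4, hCc, by positivity, C ^ (2 * C), ?_⟩
  intro x R y1 y2 hx1 hxR hYx hYl
  have hCx : C ≤ x := le_trans (Nat.le_self_pow (by omega) C) hx1
  set P : Finset ℕ := PC C 1 (SQ (-2)) x with hP
  have hmem : ∀ p ∈ P, p.Prime ∧ C < p ∧ p ^ C ≤ x ∧ ¬ p ∣ x ∧ SQ (-2) p := by
    intro p hp
    rw [hP, PC, mem_filter] at hp
    obtain ⟨-, h1, h2, h3, h4, h5⟩ := hp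
    rw [mul_one] at h5
    exact ⟨h1, h2, h3, h5, h4⟩
  have hgPC : ∀ p ∈ P, 4 / (p : ℝ) - 16 / (p : ℝ) ^ 2 ≤ gg (hitQ 1 0 (-2) x) p ∧
      gg (hitQ 1 0 (-2) x) p ≤ 4 / p := by
    intro p hp
    obtain ⟨h1, h2, h3, h4, h5⟩ := hmem p hp
    have hp4 : ¬ p ∣ 4 := fun h => absurd (Nat.le_of_dvd (by norm_num) h) (by omega)
    refine ggQ (-2) 1 0 (-2) (by norm_num) x p h1 h5 h4 ?_ ?_
    · intro h
      rw [show (2 * -2 : ℤ) = -((4 : ℕ) : ℤ) by norm_num, dvd_neg, Int.natCast_dvd_natCast] at h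
      exact hp4 h
    · intro h
      rw [show (-2 : ℤ) = -((2 : ℕ) : ℤ) by norm_num, dvd_neg, Int.natCast_dvd_natCast] at h
      exact hp4 (h.trans (by norm_num))
  have hk := hks x R y1 y2 (le_trans hCC hCx) hxR hYx hYl P (hitQ 1 0 (-2) x) ?_ ?_ ?_
  · have h3 := hK x (gg (hitQ 1 0 (-2) x)) hx1 hgPC
    have h8 : ((FxM C x R y1 y2).card : ℝ) ≤
        ((Icc y1 y2 ×ˢ Icc (-(R : ℤ)) R).filter (fun t : ℤ × ℤ =>
        (x : ℤ) ∣ t.1 * t.2 - 1 ∧ ∀ p ∈ P, ¬ hitQ 1 0 (-2) x p t.1 t.2)).card := by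
      have : (FxM C x R y1 y2).card ≤
        ((Icc y1 y2 ×ˢ Icc (-(R : ℤ)) R).filter (fun t : ℤ × ℤ =>
        (x : ℤ) ∣ t.1 * t.2 - 1 ∧ ∀ p ∈ P, ¬ hitQ 1 0 (-2) x p t.1 t.2)).card := by
        apply card_le_card
        apply monotone_filter_right
        intro u _ hu
        refine ⟨hu.1, fun p hp => ?_⟩
        obtain ⟨h1, h2, h3, h4, h5⟩ := hmem p hp
        exact hu.2 p h1 h2 h3 h4 h5
      exact_mod_cast this
    have hYx0 : (0 : ℝ) ≤ ((y2 : ℝ) - y1) / x := by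
      apply div_nonneg _ (Nat.cast_nonneg _)
      exact le_trans (Real.rpow_nonneg (Nat.cast_nonneg _) _) hYl
    refine le_trans h8 (le_trans hk ?_)
    calc (C1 : ℝ) * (((y2 : ℝ) - y1) / x) * R * ∏ p ∈ P, (1 - gg (hitQ 1 0 (-2) x) p)
        ≤ (C1 : ℝ) * (((y2 : ℝ) - y1) / x) * R *
            (K * (Real.log x) ^ (-2 : ℝ) * ((x : ℝ) / x.totient) ^ 4) := by gcongr
      _ = _ := by ring
  · intro p hp
    obtain ⟨h1, h2, h3, h4, h5⟩ := hmem p hp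
    refine ⟨h1, by omega, ?_, h4⟩
    exact le_trans (Nat.pow_le_pow_right h1.pos hCC) h3
  · intro p hp y r k l
    exact hitQ_per 1 0 (-2) x p y r k l
  · intro p hp
    have h6 : (0 : ℝ) < p := by exact_mod_cast (hmem p hp).1.pos
    refine le_trans (hgPC p hp).2 ?_
    push_cast
    gcongr
    norm_num

end Pool.Agent.H578.M2
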